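import Pool.Agent.P.MP_ea05a2_co.Main

namespace Pool.Agent.Results.MP_ea05a2_co.RainbowK4

open Pool.Agent.P.MP_ea05a2_co

/-- For `6 ≤ s ≤ 11` and large `n` the complete graph is the unique extremal graph; for `s ≥ 12`
and large `n` the extremal graphs are exactly the copies of the Turan graph `T_3(n)`. -/
theorem result :
    (∀ s : ℕ, 6 ≤ s → s ≤ 11 → ∃ n0 : ℕ, ∀ n : ℕ, n0 ≤ n →
      ∀ G : SimpleGraph (Fin n), Extremal s G ↔ G = ⊤) ∧
    (∀ s : ℕ, 12 ≤ s → ∃ n0 : ℕ, ∀ n : ℕ, n0 ≤ n →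
      ∀ G : SimpleGraph (Fin n), Extremal s G ↔ Nonempty (G ≃g SimpleGraph.turanGraph n 3)) :=
  ⟨main_small, main_large⟩

end Pool.Agent.Results.MP_ea05a2_co.RainbowK4
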