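import Pool.Agent.P.MP_ea05a2_co.Count

open Pool.Agent.P.MP_ea05a2_co

theorem Pool.Agent.Results.MP_ea05a2_co.UniformCount.result :
    ∀ s : ℕ, 6 ≤ s → ((∀ ε : ℝ, 0 < ε → ∃ n0 : ℕ, ∀ n : ℕ, n0 ≤ n → ∀ G : SimpleGraph (Fin n),
      |(numCol s G : ℝ) - s.choose 5 * 5 ^ G.edgeSet.ncard| ≤ ε * 5 ^ n.choose 2) ↔ s ≤ 11) :=
  fun s h6 => ⟨fun h => by
    by_contra hc
    obtain ⟨n0, h0⟩ := h 1 one_pos
    obtain ⟨n, hn, G, hG⟩ := count_large s (by omega) n0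
    exact absurd (h0 n hn G) (not_le.2 hG), fun h11 => count_small s (by omega) h11⟩
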